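import Mathlib.Combinatorics.SimpleGraph.Acyclic
import Mathlib.Data.Set.Card

/-!
Branches of a tree, core edges and parent edges.
-/

open SimpleGraph Relation

namespace Pool.Agent.Work.MP_f65c66_pr

variable {V : Type*}

/-- Vertices reachable from `w` without stepping on `v`. -/
def branch (G : SimpleGraph V) (v w : V) : Set V :=
  {x | ReflTransGen (fun a b => G.Adj a b ∧ b ≠ v) w x}

/-- Core edges: both sides are infinite. -/
def Core (G : SimpleGraph V) (v w : V) : Prop :=
  G.Adj v w ∧ (branch G v w).Infinite ∧ (branch G w v).Infinite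

/-- `w` is the parent of `v`: the side of `v` is finite. -/
def Par (G : SimpleGraph V) (v w : V) : Prop :=
  G.Adj v w ∧ (branch G w v).Finite

variable {G : SimpleGraph V}

lemma self_mem_branch (v w : V) : w ∈ branch G v w := ReflTransGen.refl

lemma step_mem_branch {v w x y : V} (hx : x ∈ branch G v w) (hxy : G.Adj x y) (hy : y ≠ v) :
    y ∈ branch G v w := ReflTransGen.tail hx ⟨hxy, hy⟩

lemma not_mem_branch {v w : V} (h : w ≠ v) : v ∉ branch G v w := by
  intro hv
  have : ∀ x, ReflTransGen (fun a b => G.Adj a b ∧ b ≠ v) w x → x ≠ v := by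
    intro x hx
    induction hx with
    | refl => exact h
    | tail _ h2 _ => exact h2.2
  exact this v hv rfl

lemma Core.symm {v w : V} (h : Core G v w) : Core G w v := ⟨h.1.symm, h.2.2, h.2.1⟩

lemma exists_walk_of_mem_branch {v w x : V} (h : w ≠ v) (hx : x ∈ branch G v w) :
    ∃ p : G.Walk w x, v ∉ p.support := by
  change ReflTransGen _ w x at hx
  induction hx with
  | refl => exact ⟨Walk.nil, by simpa using h.symm⟩
  | tail _ h2 ih =>
    obtain ⟨p, hp⟩ := ih
    refine ⟨p.concat h2.1, ?_⟩
    simp only [Walk.support_concat, List.mem_append, List.mem_singleton,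
      not_or]
    exact ⟨hp, h2.2.symm⟩

/-- Acyclicity: another neighbour of `v` is not in the branch at `u`. -/
lemma not_mem_branch_of_adj (hG : G.IsAcyclic) {v u w : V} (hu : G.Adj v u) (hw : G.Adj v w)
    (huw : u ≠ w) : w ∉ branch G v u := by
  classical
  intro hmem
  obtain ⟨p, hp⟩ := exists_walk_of_mem_branch hu.ne' hmem
  have hq : v ∉ (p.toPath : G.Walk u w).support := fun h => hp (Walk.support_toPath_subset_support p h)
  have h1 : (Walk.cons hu (p.toPath : G.Walk u w)).IsPath := by
    rw [Walk.cons_isPath_iff]; exact ⟨p.toPath.2, hq⟩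
  have h2 := hG.eq_snd_of_adj_start h1 hw (by simp)
  simp at h2
  exact huw h2.symm

lemma branch_subset_branch (hG : G.IsAcyclic) {v u w : V} (hu : G.Adj v u) (hw : G.Adj v w)
    (huw : u ≠ w) : branch G v u ⊆ branch G w v := by
  intro x hx
  have hnw := not_mem_branch_of_adj hG hu hw huw
  change ReflTransGen _ u x at hx
  induction hx with
  | refl => exact step_mem_branch (self_mem_branch _ _) hu huw
  | tail h1 h2 ih =>
    refine step_mem_branch ih h2.1 ?_
    rintro rfl
    exact hnw (ReflTransGen.tail h1 h2)

lemma branch_subset_union (v w : V) :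
    branch G w v ⊆ {v} ∪ ⋃ u ∈ {u | G.Adj v u ∧ u ≠ w}, branch G v u := by
  intro x hx
  change ReflTransGen _ v x at hx
  induction hx with
  | refl => simp
  | @tail b c _ h2 ih =>
    by_cases hc : c = v
    · simp [hc]
    rcases ih with hb | hb
    · have hb' : b = v := hb
      subst hb'
      refine Or.inr ?_
      simp only [Set.mem_iUnion]
      exact ⟨c, ⟨h2.1, h2.2⟩, self_mem_branch _ _⟩
    · simp only [Set.mem_iUnion] at hb
      obtain ⟨u, hu, hbu⟩ := hb
      refine Or.inr ?_
      simp only [Set.mem_iUnion]
      exact ⟨u, hu, step_mem_branch hbu h2.1 hc⟩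

lemma branch_union (hG : G.Preconnected) (v w : V) :
    branch G v w ∪ branch G w v = Set.univ := by
  refine Set.eq_univ_of_forall fun x => ?_
  have hx := (reachable_iff_reflTransGen _ _).1 (hG v x)
  induction hx with
  | refl => exact Or.inr (self_mem_branch _ _)
  | @tail b c _ h2 ih =>
    rcases ih with hb | hb
    · by_cases hc : c = v
      · subst hc; exact Or.inr (self_mem_branch _ _)
      · exact Or.inl (step_mem_branch hb h2 hc)
    · by_cases hc : c = w
      · subst hc; exact Or.inl (self_mem_branch _ _)
      · exact Or.inr (step_mem_branch hb h2 hc)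

lemma infinite_or [Infinite V] (hG : G.Preconnected) (v w : V) :
    (branch G v w).Infinite ∨ (branch G w v).Infinite := by
  rw [← Set.infinite_union, branch_union hG]
  exact Set.infinite_univ

lemma exists_infinite_branch {v w : V} (hfin : (G.neighborSet v).Finite)
    (h : (branch G w v).Infinite) : ∃ u, G.Adj v u ∧ u ≠ w ∧ (branch G v u).Infinite := by
  by_contra hcon
  push Not at hcon
  refine h (Set.Finite.subset ?_ (branch_subset_union v w))
  refine (Set.finite_singleton v).union (Set.Finite.biUnion ?_ ?_)
  · exact hfin.subset fun u hu => hu.1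
  · intro u hu
    exact hcon u hu.1 hu.2

/-- A vertex with a core edge has a second core edge. -/
lemma Core.exists_ne (hG : G.IsAcyclic) {v w : V} (hfin : (G.neighborSet v).Finite)
    (h : Core G v w) : ∃ u, u ≠ w ∧ Core G v u := by
  obtain ⟨u, hu, huw, hinf⟩ := exists_infinite_branch hfin h.2.2
  exact ⟨u, huw, hu, hinf, h.2.1.mono (branch_subset_branch hG h.1 hu huw.symm)⟩

lemma Par.unique [Infinite V] (hG : G.IsTree) {v w w' : V} (h : Par G v w) (h' : Par G v w') :
    w = w' := by
  by_contra hne
  have h1 : (branch G v w).Finite :=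
    h'.2.subset (branch_subset_branch hG.isAcyclic h.1 h'.1 hne)
  rcases infinite_or hG.connected.preconnected v w with h2 | h2
  · exact h2 h1
  · exact h2 h.2

lemma Par.not_core (hG : G.IsAcyclic) {v w u : V} (h : Par G v w) : ¬ Core G v u := by
  intro hc
  by_cases huw : u = w
  · subst huw; exact hc.2.2 h.2
  · exact hc.2.1 (h.2.subset (branch_subset_branch hG hc.1 h.1 huw))

lemma core_or_par {v w : V} (h : G.Adj v w) : Core G v w ∨ Par G v w ∨ Par G w v := by
  by_cases h1 : (branch G v w).Finite
  · exact Or.inr (Or.inr ⟨h.symm, h1⟩)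
  by_cases h2 : (branch G w v).Finite
  · exact Or.inr (Or.inl ⟨h, h2⟩)
  exact Or.inl ⟨h, h1, h2⟩

/-- The case of degree at most two: the parent of a vertex has a parent, with one more
descendant, and it has only one child. -/
lemma par_step [Infinite V] (hG : G.IsTree) {v o : V} (hdeg : (G.neighborSet o).encard ≤ 2)
    (h : Par G v o) :
    (∃ w, Par G o w ∧ (branch G w o).ncard = (branch G o v).ncard + 1) ∧
      ∀ v', Par G v' o → v' = v := by
  have hfin : (G.neighborSet o).Finite :=
    Set.finite_of_encard_le_coe (k := 2) (by simpa using hdeg)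
  have hinf : (branch G v o).Infinite := by
    rcases infinite_or hG.connected.preconnected v o with h2 | h2
    · exact h2
    · exact absurd h.2 h2
  obtain ⟨w, hw, hwv, hwinf⟩ := exists_infinite_branch hfin hinf
  have hnb : ∀ u, G.Adj o u → u = v ∨ u = w := by
    intro u hu
    by_contra hcon
    push Not at hcon
    have hsub : ({u, v, w} : Set V) ⊆ G.neighborSet o := by
      intro x hx
      rcases hx with rfl | rfl | rfl
      · exact hu
      · exact h.1.symm
      · exact hw
    have h3 : ({u, v, w} : Set V).encard = 3 :=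
      Set.encard_eq_three.2 ⟨u, v, w, hcon.1, hcon.2, hwv.symm, rfl⟩
    have := (Set.encard_le_encard hsub).trans hdeg
    rw [h3] at this
    exact absurd this (by decide)
  have heq : branch G w o = insert o (branch G o v) := by
    apply Set.Subset.antisymm
    · intro x hx
      rcases branch_subset_union o w hx with hx | hx
      · exact Or.inl hx
      · simp only [Set.mem_iUnion] at hx
        obtain ⟨u, hu, hxu⟩ := hx
        rcases hnb u hu.1 with rfl | rfl
        · exact Or.inr hxu
        · exact absurd rfl hu.2
    · rintro x (rfl | hx)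
      · exact self_mem_branch _ _
      · exact branch_subset_branch hG.isAcyclic h.1.symm hw hwv.symm hx
  refine ⟨⟨w, ⟨hw, ?_⟩, ?_⟩, ?_⟩
  · rw [heq]; exact h.2.insert o
  · rw [heq, Set.ncard_insert_of_notMem (not_mem_branch h.1.ne) h.2]
  · intro v' hv'
    rcases hnb v' hv'.1.symm with rfl | rfl
    · rfl
    · exact absurd hv'.2 hwinf

/-! Invariance under isomorphisms. -/

lemma reflTransGen_equiv {α β : Type*} (e : α ≃ β) {r : α → α → Prop} {r' : β → β → Prop}
    (h : ∀ a b, r' (e a) (e b) ↔ r a b) (a b : α) :
    ReflTransGen r' (e a) (e b) ↔ ReflTransGen r a b := by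
  constructor
  · intro hab
    have : ∀ x y, ReflTransGen r' x y → ReflTransGen r (e.symm x) (e.symm y) := by
      intro x y hxy
      induction hxy with
      | refl => exact ReflTransGen.refl
      | tail _ h2 ih => exact ReflTransGen.tail ih (by rw [← h]; simpa using h2)
    simpa using this _ _ hab
  · intro hab
    induction hab with
    | refl => exact ReflTransGen.refl
    | tail _ h2 ih => exact ReflTransGen.tail ih ((h _ _).2 h2)

variable {W : Type*} {G' : SimpleGraph W}

lemma branch_iso (φ : G ≃g G') (v w : V) :
    branch G' (φ v) (φ w) = φ '' branch G v w := by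
  ext y
  obtain ⟨x, rfl⟩ := φ.surjective y
  rw [φ.injective.mem_set_image]
  exact reflTransGen_equiv φ.toEquiv (r := fun a b => G.Adj a b ∧ b ≠ v)
    (r' := fun a b => G'.Adj a b ∧ b ≠ φ v)
    (fun a b => and_congr φ.map_rel_iff φ.injective.ne_iff) w x

lemma branch_finite_iso (φ : G ≃g G') (v w : V) :
    (branch G' (φ v) (φ w)).Finite ↔ (branch G v w).Finite := by
  rw [branch_iso, Set.finite_image_iff φ.injective.injOn]

lemma branch_ncard_iso (φ : G ≃g G') (v w : V) :
    (branch G' (φ v) (φ w)).ncard = (branch G v w).ncard := by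
  rw [branch_iso, Set.ncard_image_of_injective _ φ.injective]

lemma core_iso (φ : G ≃g G') (v w : V) : Core G' (φ v) (φ w) ↔ Core G v w := by
  simp only [Core, Set.Infinite, branch_finite_iso, φ.map_rel_iff]

lemma par_iso (φ : G ≃g G') (v w : V) : Par G' (φ v) (φ w) ↔ Par G v w := by
  simp only [Par, branch_finite_iso, φ.map_rel_iff]

end Pool.Agent.Work.MP_f65c66_pr
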