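import Mathlib.MeasureTheory.Constructions.SimpleGraph
import Mathlib.Combinatorics.SimpleGraph.Maps
import Mathlib.Data.Set.Card
import Mathlib.MeasureTheory.Integral.Lebesgue.Basic

/-!
Definitions used in the statement for MP_f65c66_pr.

An infinite, connected, locally finite graph has countably many vertices, so its vertices are
labelled by `ℕ`.  The space `SimpleGraph ℕ` carries the product sigma-algebra of Mathlib.
A function on isomorphism classes of doubly rooted graphs is a function of `(G, u, v)` that is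
invariant under graph isomorphisms.
-/

open MeasureTheory
open scoped ENNReal

namespace Pool.Agent.Work.MP_f65c66_pr

/-- Mass transport principle for the law `μ` of a random rooted graph `(G, o)`. -/
def IsUnimodular (μ : Measure (SimpleGraph ℕ × ℕ)) : Prop :=
  ∀ F : SimpleGraph ℕ × ℕ × ℕ → ℝ≥0∞, Measurable F →
    (∀ (G G' : SimpleGraph ℕ) (φ : G ≃g G') (u v : ℕ), F (G', φ u, φ v) = F (G, u, v)) →
    ∫⁻ p, ∑' v, F (p.1, p.2, v) ∂μ = ∫⁻ p, ∑' v, F (p.1, v, p.2) ∂μ

/-- Mass transport principle for the law `ν` of a random rooted graph `(G, L, o)` whose edges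
are marked by the set of edges `L` (itself recorded as a graph on the same vertices). -/
def IsUnimodularMarked (ν : Measure (SimpleGraph ℕ × SimpleGraph ℕ × ℕ)) : Prop :=
  ∀ F : SimpleGraph ℕ × SimpleGraph ℕ × ℕ × ℕ → ℝ≥0∞, Measurable F →
    (∀ (G G' L L' : SimpleGraph ℕ) (φ : G ≃g G'), (∀ a b, L'.Adj (φ a) (φ b) ↔ L.Adj a b) →
      ∀ u v : ℕ, F (G', L', φ u, φ v) = F (G, L, u, v)) →
    ∫⁻ q, ∑' v, F (q.1, q.2.1, q.2.2, v) ∂ν = ∫⁻ q, ∑' v, F (q.1, q.2.1, v, q.2.2) ∂ν

/-- `L` is a line ensemble of `T`: a set of edges of `T` such that every vertex meets exactly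
`0` or exactly `2` edges of `L`. -/
def IsLineEnsemble (T L : SimpleGraph ℕ) : Prop :=
  L ≤ T ∧ ∀ v, (L.neighborSet v).encard = 0 ∨ (L.neighborSet v).encard = 2

end Pool.Agent.Work.MP_f65c66_pr
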