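import Pool.Agent.Work.MP_f65c66_pr.Meas
import Pool.Agent.Work.MP_f65c66_pr.Defs
import Mathlib.MeasureTheory.Integral.Bochner.Basic
import Mathlib.Data.Real.ENatENNReal

/-!
Mass transport bounds for the expected core degree.
-/

open SimpleGraph MeasureTheory
open scoped ENNReal

namespace Pool.Agent.Work.MP_f65c66_pr

/-- The number of `v` with `P v`. -/
noncomputable def cnt (P : ℕ → Prop) : ℝ≥0∞ := ({v | P v}.encard : ℝ≥0∞)

lemma tsum_indicator_eq_cnt (P : ℕ → Prop) :
    ∑' v, ({v | P v}.indicator 1 v : ℝ≥0∞) = cnt P := by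
  rw [← tsum_subtype {v | P v} (1 : ℕ → ℝ≥0∞)]
  exact ENNReal.tsum_set_one _

lemma measurable_cnt {Ω : Type*} [MeasurableSpace Ω] {P : Ω → ℕ → Prop}
    (hP : ∀ v, Measurable fun ω => P ω v) : Measurable fun ω => cnt (P ω) := by
  have h1 : Measurable fun ω => {v | P ω v}.encard :=
    measurable_encard.comp (measurable_set_iff.2 hP)
  exact (Measurable.of_discrete (f := fun n : ℕ∞ => (n : ℝ≥0∞))).comp h1

lemma measurable_rel {R : SimpleGraph ℕ → ℕ → ℕ → Prop} (hR : ∀ u v, Measurable fun G => R G u v)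
    {Ω : Type*} [MeasurableSpace Ω] {G : Ω → SimpleGraph ℕ} {u v : Ω → ℕ} (hG : Measurable G)
    (hu : Measurable u) (hv : Measurable v) : Measurable fun ω => R (G ω) (u ω) (v ω) :=
  measurable_at (f := fun (z : ℕ × ℕ) ω => R (G ω) z.1 z.2)
    (fun z => (hR z.1 z.2).comp hG) (hu.prodMk hv)

variable {μ : Measure (SimpleGraph ℕ × ℕ)}

lemma mtp_cnt (hμ : IsUnimodular μ) {R : SimpleGraph ℕ → ℕ → ℕ → Prop}
    (hR : ∀ u v, Measurable fun G => R G u v)
    (hinv : ∀ (G G' : SimpleGraph ℕ) (φ : G ≃g G') (u v : ℕ), R G' (φ u) (φ v) ↔ R G u v) :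
    ∫⁻ p, cnt (fun v => R p.1 p.2 v) ∂μ = ∫⁻ p, cnt (fun v => R p.1 v p.2) ∂μ := by
  have hm : MeasurableSet {q : SimpleGraph ℕ × ℕ × ℕ | R q.1 q.2.1 q.2.2} :=
    (measurable_rel hR measurable_fst measurable_snd.fst measurable_snd.snd).setOf
  have := hμ ({q : SimpleGraph ℕ × ℕ × ℕ | R q.1 q.2.1 q.2.2}.indicator 1)
    (measurable_one.indicator hm) (by
      intro G G' φ u v
      classical
      simp only [Set.indicator_apply, Set.mem_ofPred_eq, hinv, Pi.one_apply])
  simp only [← tsum_indicator_eq_cnt]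
  exact this

lemma encard_neighborSet_iso {G G' : SimpleGraph ℕ} (φ : G ≃g G') (v : ℕ) :
    (G'.neighborSet (φ v)).encard = (G.neighborSet v).encard := by
  rw [← φ.injective.encard_image (G.neighborSet v)]
  congr 1
  ext y
  obtain ⟨x, rfl⟩ := φ.surjective y
  rw [φ.injective.mem_set_image]
  exact φ.map_rel_iff

lemma all_deg_le (hμ : IsUnimodular μ) {d : ℕ}
    (hdeg : ∀ᵐ p ∂μ, (p.1.neighborSet p.2).encard ≤ (d : ℕ∞)) :
    ∀ᵐ p ∂μ, ∀ v, (p.1.neighborSet v).encard ≤ (d : ℕ∞) := by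
  have hR : ∀ u v : ℕ, Measurable fun G : SimpleGraph ℕ => ¬ (G.neighborSet v).encard ≤ d := by
    intro u v
    have h1 : Measurable fun G : SimpleGraph ℕ => (G.neighborSet v).encard :=
      measurable_encard.comp (measurable_neighborSet measurable_id v)
    exact (Measurable.of_discrete (f := fun n : ℕ∞ => ¬ n ≤ d)).comp h1
  have h := mtp_cnt hμ (R := fun G _ v => ¬ (G.neighborSet v).encard ≤ d) hR
    (fun G G' φ u v => by rw [encard_neighborSet_iso])
  have h0 : ∫⁻ p, cnt (fun _ => ¬ (p.1.neighborSet p.2).encard ≤ d) ∂μ = 0 := by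
    rw [← lintegral_zero (μ := μ)]
    refine lintegral_congr_ae ?_
    filter_upwards [hdeg] with p hp
    simp [cnt, hp]
  have hm : Measurable fun p : SimpleGraph ℕ × ℕ =>
      cnt fun v => ¬ (p.1.neighborSet v).encard ≤ (d : ℕ∞) :=
    measurable_cnt fun v => (hR v v).comp measurable_fst
  rw [h0, lintegral_eq_zero_iff hm] at h
  filter_upwards [h] with p hp v
  by_contra hv
  simp only [cnt, Pi.zero_apply, ENat.toENNReal_eq_zero, Set.encard_eq_zero] at hp
  exact Set.eq_empty_iff_forall_notMem.1 hp v hv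

lemma cnt_le_one {P : ℕ → Prop} (h : ∀ a b, P a → P b → a = b) : cnt P ≤ 1 := by
  have : {v | P v}.encard ≤ 1 := Set.encard_le_one_iff.2 h
  unfold cnt
  exact_mod_cast this

lemma cnt_eq_zero {P : ℕ → Prop} (h : ∀ a, ¬ P a) : cnt P = 0 := by
  simp [cnt, h]

lemma cnt_eq_one {P : ℕ → Prop} {a : ℕ} (ha : P a) (h : ∀ a b, P a → P b → a = b) :
    cnt P = 1 := by
  have : {v | P v} = {a} := by
    ext v
    exact ⟨fun hv => h _ _ hv ha, fun hv => by rw [hv]; exact ha⟩
  simp [cnt, this]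

lemma cnt_adj_le (G : SimpleGraph ℕ) (o : ℕ) :
    cnt (G.Adj o) ≤ cnt (Core G o) + (cnt (Par G o) + cnt fun v => Par G v o) := by
  have h : {v | G.Adj o v} ⊆ {v | Core G o v} ∪ ({v | Par G o v} ∪ {v | Par G v o}) :=
    fun v hv => core_or_par hv
  have := (Set.encard_le_encard h).trans ((Set.encard_union_le _ _).trans
    (add_le_add le_rfl (Set.encard_union_le _ _)))
  unfold cnt
  exact_mod_cast this

lemma cnt_adj_add_le {G : SimpleGraph ℕ} (hG : G.IsTree) (o : ℕ) {d : ℕ}
    (hdeg : (G.neighborSet o).encard ≤ d) :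
    cnt (G.Adj o) + d * cnt (Par G o) ≤ d + (cnt (Par G o) + cnt fun v => Par G v o) := by
  by_cases h : ∃ w, Par G o w
  · obtain ⟨w, hw⟩ := h
    have h1 : cnt (Par G o) = 1 := cnt_eq_one hw fun a b ha hb => ha.unique hG hb
    have h2 : cnt (Core G o) = 0 := cnt_eq_zero fun a => hw.not_core hG.isAcyclic
    have h3 := cnt_adj_le G o
    rw [h2, zero_add] at h3
    rw [add_comm]
    refine add_le_add ?_ h3
    rw [h1, mul_one]
  · push Not at h
    rw [cnt_eq_zero h, mul_zero, add_zero]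
    refine le_add_right ?_
    unfold cnt
    exact_mod_cast hdeg

lemma mtp_par (hμ : IsUnimodular μ) :
    ∫⁻ p, cnt (Par p.1 p.2) ∂μ = ∫⁻ p, cnt (fun v => Par p.1 v p.2) ∂μ :=
  mtp_cnt hμ (R := Par) (measurable_par measurable_id) fun _ _ φ u v => par_iso φ u v

lemma measurable_cnt_par : Measurable fun p : SimpleGraph ℕ × ℕ => cnt (Par p.1 p.2) :=
  measurable_cnt fun _ =>
    measurable_rel (R := Par) (measurable_par measurable_id) measurable_fst measurable_snd
      measurable_const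

lemma measurable_cnt_core : Measurable fun p : SimpleGraph ℕ × ℕ => cnt (Core p.1 p.2) :=
  measurable_cnt fun _ =>
    measurable_rel (R := Core) (measurable_core measurable_id) measurable_fst measurable_snd
      measurable_const

lemma measurable_cnt_adj : Measurable fun p : SimpleGraph ℕ × ℕ => cnt (p.1.Adj p.2) :=
  measurable_cnt fun _ =>
    measurable_rel (R := SimpleGraph.Adj) (measurable_adj' measurable_id) measurable_fst
      measurable_snd measurable_const

/-- With degrees at most two, no vertex has a finite side. -/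
lemma par_null [IsProbabilityMeasure μ] (hμ : IsUnimodular μ) (htree : ∀ᵐ p ∂μ, p.1.IsTree)
    (hdeg : ∀ᵐ p ∂μ, (p.1.neighborSet p.2).encard ≤ 2) :
    ∫⁻ p, cnt (Par p.1 p.2) ∂μ = 0 := by
  let R : ℕ → SimpleGraph ℕ → ℕ → ℕ → Prop :=
    fun n G u v => Par G u v ∧ (branch G v u).ncard = n
  have hR : ∀ n u v, Measurable fun G => R n G u v := fun n u v =>
    (measurable_par measurable_id u v).and
      ((measurable_ncard.comp (measurable_branch measurable_id v u)).eq_const n)
  have hRm : ∀ n, Measurable fun p : SimpleGraph ℕ × ℕ => cnt (R n p.1 p.2) := fun n =>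
    measurable_cnt fun _ => measurable_rel (hR n) measurable_fst measurable_snd measurable_const
  let a : ℕ → ℝ≥0∞ := fun n => ∫⁻ p, cnt (R n p.1 p.2) ∂μ
  have hmono : ∀ n, a n ≤ a (n + 1) := by
    intro n
    have h := mtp_cnt hμ (R := R n) (hR n) fun G G' φ u v => by
      simp only [R, par_iso, branch_ncard_iso]
    refine h.le.trans (lintegral_mono_ae ?_)
    filter_upwards [htree, hdeg] with p hp hd
    by_cases hex : ∃ v, R n p.1 v p.2
    · obtain ⟨v, hv⟩ := hex
      obtain ⟨⟨w, hw, hwn⟩, huniq⟩ := par_step hp hd hv.1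
      have h1 : cnt (R (n + 1) p.1 p.2) = 1 :=
        cnt_eq_one (a := w) ⟨hw, by rw [hwn, hv.2]⟩ fun a b ha hb => ha.1.unique hp hb.1
      rw [h1]
      exact cnt_le_one fun a b ha hb => (huniq a ha.1).trans (huniq b hb.1).symm
    · push Not at hex
      rw [cnt_eq_zero hex]
      exact zero_le
  have hsum : ∀ p : SimpleGraph ℕ × ℕ, p.1.IsTree →
      ∑' n, cnt (R n p.1 p.2) = cnt (Par p.1 p.2) := by
    intro p hp
    by_cases h : ∃ w, Par p.1 p.2 w
    · obtain ⟨w, hw⟩ := h
      rw [cnt_eq_one hw fun a b ha hb => ha.unique hp hb,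
        tsum_eq_single (branch p.1 w p.2).ncard]
      · exact cnt_eq_one (a := w) ⟨hw, rfl⟩ fun a b ha hb => ha.1.unique hp hb.1
      · intro n hn
        refine cnt_eq_zero fun v hv => hn ?_
        rw [← hv.2, hv.1.unique hp hw]
    · push Not at h
      rw [cnt_eq_zero h]
      simp only [ENNReal.tsum_eq_zero]
      exact fun n => cnt_eq_zero fun v hv => h v hv.1
  have htot : ∫⁻ p, cnt (Par p.1 p.2) ∂μ = ∑' n, a n := by
    rw [← lintegral_tsum fun n => (hRm n).aemeasurable]
    refine lintegral_congr_ae ?_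
    filter_upwards [htree] with p hp
    exact (hsum p hp).symm
  have hle : ∫⁻ p, cnt (Par p.1 p.2) ∂μ ≤ 1 := by
    calc ∫⁻ p, cnt (Par p.1 p.2) ∂μ ≤ ∫⁻ _, 1 ∂μ := by
          refine lintegral_mono_ae ?_
          filter_upwards [htree] with p hp
          exact cnt_le_one fun a b ha hb => ha.unique hp hb
      _ = 1 := by simp
  rw [htot] at hle ⊢
  rw [ENNReal.tsum_eq_zero]
  intro m
  by_contra hm
  have hM : Monotone a := monotone_nat_of_le_succ hmono
  have h1 : ∑' _ : ℕ, a m ≤ ∑' n, a n := by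
    calc ∑' _ : ℕ, a m ≤ ∑' n, a (n + m) := ENNReal.tsum_le_tsum fun n => hM (by omega)
      _ ≤ ∑' n, a n :=
        ENNReal.tsum_comp_le_tsum_of_injective (f := fun n => n + m) (add_left_injective m) a
  rw [ENNReal.tsum_const_eq_top_of_ne_zero hm] at h1
  exact absurd (h1.trans hle) (by simp)

lemma core_bound [IsProbabilityMeasure μ] (hμ : IsUnimodular μ) (htree : ∀ᵐ p ∂μ, p.1.IsTree)
    {d : ℕ} (hd : 2 ≤ d) (hdeg : ∀ᵐ p ∂μ, (p.1.neighborSet p.2).encard ≤ (d : ℕ∞)) :
    3 * ((∫ p, ((p.1.neighborSet p.2).ncard : ℝ) ∂μ) / d) - 2 ≤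
      (∫⁻ p, cnt (Core p.1 p.2) ∂μ).toReal / d := by
  set D := ∫⁻ p, cnt (p.1.Adj p.2) ∂μ with hD
  set K := ∫⁻ p, cnt (Core p.1 p.2) ∂μ with hK
  set q := ∫⁻ p, cnt (Par p.1 p.2) ∂μ with hq
  have hadj : ∀ᵐ p ∂μ, cnt (p.1.Adj p.2) ≤ d := by
    filter_upwards [hdeg] with p hp
    unfold cnt
    exact_mod_cast hp
  have hDd : D ≤ d := by
    calc D ≤ ∫⁻ _, d ∂μ := lintegral_mono_ae hadj
      _ = d := by simp
  have hKD : K ≤ D := by
    refine lintegral_mono fun p => ?_
    have : {v | Core p.1 p.2 v}.encard ≤ {v | p.1.Adj p.2 v}.encard :=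
      Set.encard_le_encard fun v hv => hv.1
    exact ENat.toENNReal_le.2 this
  have hq1 : q ≤ 1 := by
    calc q ≤ ∫⁻ _, 1 ∂μ := by
          refine lintegral_mono_ae ?_
          filter_upwards [htree] with p hp
          exact cnt_le_one fun a b ha hb => ha.unique hp hb
      _ = 1 := by simp
  have h1 : D ≤ K + (q + q) := by
    calc D ≤ ∫⁻ p, cnt (Core p.1 p.2) + (cnt (Par p.1 p.2) + cnt fun v => Par p.1 v p.2) ∂μ :=
          lintegral_mono fun p => cnt_adj_le p.1 p.2
      _ = K + (q + q) := by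
          rw [lintegral_add_left measurable_cnt_core, lintegral_add_left measurable_cnt_par,
            ← mtp_par hμ]
  have h2 : D + d * q ≤ d + (q + q) := by
    calc D + d * q = ∫⁻ p, cnt (p.1.Adj p.2) + d * cnt (Par p.1 p.2) ∂μ := by
          rw [lintegral_add_left measurable_cnt_adj, lintegral_const_mul _ measurable_cnt_par]
      _ ≤ ∫⁻ p, d + (cnt (Par p.1 p.2) + cnt fun v => Par p.1 v p.2) ∂μ := by
          refine lintegral_mono_ae ?_
          filter_upwards [htree, hdeg] with p hp hd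
          exact cnt_adj_add_le hp p.2 hd
      _ = d + (q + q) := by
          rw [lintegral_add_left measurable_const, lintegral_add_left measurable_cnt_par,
            ← mtp_par hμ]
          simp [hq]
  have hDt : D ≠ ∞ := ne_top_of_le_ne_top (by simp) hDd
  have hKt : K ≠ ∞ := ne_top_of_le_ne_top hDt hKD
  have hqt : q ≠ ∞ := ne_top_of_le_ne_top (by simp) hq1
  have hint : ∫ p, ((p.1.neighborSet p.2).ncard : ℝ) ∂μ = D.toReal := by
    rw [hD, ← integral_toReal measurable_cnt_adj.aemeasurable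
      (hadj.mono fun p hp => hp.trans_lt (by simp))]
    refine integral_congr_ae ?_
    filter_upwards [hdeg] with p hp
    have hfin : (p.1.neighborSet p.2).Finite := Set.finite_of_encard_le_coe hp
    have : cnt (p.1.Adj p.2) = ((p.1.neighborSet p.2).ncard : ℝ≥0∞) := by
      change (((p.1.neighborSet p.2).encard : ℕ∞) : ℝ≥0∞) = _
      rw [← hfin.cast_ncard_eq]; simp
    simp [this]
  have h1' : D.toReal ≤ K.toReal + (q.toReal + q.toReal) := by
    have := ENNReal.toReal_mono (by simp [hKt, hqt]) h1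
    rwa [ENNReal.toReal_add hKt (by simp [hqt]), ENNReal.toReal_add hqt hqt] at this
  have h2' : D.toReal + d * q.toReal ≤ d + (q.toReal + q.toReal) := by
    have := ENNReal.toReal_mono (by simp [hqt]) h2
    rwa [ENNReal.toReal_add hDt (ENNReal.mul_ne_top (by simp) hqt),
      ENNReal.toReal_add (by simp) (by simp [hqt]), ENNReal.toReal_add hqt hqt,
      ENNReal.toReal_mul, ENNReal.toReal_natCast] at this
  have hq0 : 0 ≤ q.toReal := ENNReal.toReal_nonneg
  have hdpos : (0 : ℝ) < d := by exact_mod_cast (by omega : 0 < d)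
  have key : 3 * D.toReal - 2 * d ≤ K.toReal := by
    rcases Nat.eq_or_lt_of_le hd with rfl | hd3
    · have : q = 0 := par_null hμ htree (by simpa using hdeg)
      rw [this] at h1' h2'
      simp only [ENNReal.toReal_zero] at h1' h2'
      linarith
    · have : (3 : ℝ) ≤ d := by exact_mod_cast hd3
      nlinarith
  rw [hint, le_div_iff₀ hdpos]
  have : (3 * (D.toReal / d) - 2) * d = 3 * D.toReal - 2 * d := by field_simp
  rw [this]
  exact key

end Pool.Agent.Work.MP_f65c66_pr
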