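import Pool.Agent.Work.MP_f65c66_pr.Section
import Mathlib.Logic.Equiv.Fintype
import Mathlib.Order.Interval.Set.Nat

/-!
The local rule at a vertex and the family of line ensembles.
-/

open SimpleGraph Relation

namespace Pool.Agent.Work.MP_f65c66_pr

/-- `x` is one of `i` and `i + 1 mod k`. -/
def InPair (k i x : ℕ) : Prop := x = i ∨ x = (i + 1) % k

open Classical in
/-- A permutation of the colours that sends the pair `{i, i + 1 mod k}` to `{0, 1}`. -/
noncomputable def gam (d k i : ℕ) : Equiv.Perm (Fin d) :=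
  if h : ∃ σ : Equiv.Perm (Fin d), ∀ x : Fin d, (σ x : ℕ) < 2 ↔ InPair k i x then h.choose
  else Equiv.refl _

lemma succ_mod_ne {k i : ℕ} (hk : 2 ≤ k) (hi : i < k) : (i + 1) % k ≠ i := by
  rcases Nat.lt_or_ge (i + 1) k with h | h
  · rw [Nat.mod_eq_of_lt h]; omega
  · have : i + 1 = k := by omega
    rw [this, Nat.mod_self]; omega

lemma gam_spec {d k i : ℕ} (hk : 2 ≤ k) (hkd : k ≤ d) (hi : i < k) (x : Fin d) :
    (gam d k i x : ℕ) < 2 ↔ InPair k i x := by
  have hex : ∃ σ : Equiv.Perm (Fin d), ∀ x : Fin d, (σ x : ℕ) < 2 ↔ InPair k i x := by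
    have hj : (i + 1) % k < d := (Nat.mod_lt _ (by omega)).trans_le hkd
    have hne := succ_mod_ne hk hi
    let f : Bool → Fin d := fun c => if c then ⟨(i + 1) % k, hj⟩ else ⟨i, by omega⟩
    let g : Bool → Fin d := fun c => if c then ⟨1, by omega⟩ else ⟨0, by omega⟩
    have hf : Function.Injective f := by
      intro a b hab
      cases a <;> cases b <;> simp_all [f, Fin.ext_iff, hne.symm]
    have hg : Function.Injective g := by
      intro a b hab
      cases a <;> cases b <;> simp_all [g, Fin.ext_iff]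
    obtain ⟨σ, hσ⟩ := Equiv.Perm.exists_extending_pair f g hf hg
    refine ⟨σ, fun x => ?_⟩
    have h0 := hσ false
    have h1 := hσ true
    simp only [f, g, if_true, Bool.false_eq_true, if_false] at h0 h1
    constructor
    · intro hx
      have : (σ x : ℕ) = 0 ∨ (σ x : ℕ) = 1 := by omega
      rcases this with h | h
      · left
        have : σ x = σ ⟨i, by omega⟩ := by rw [h0]; exact Fin.ext h
        exact congrArg Fin.val (σ.injective this)
      · right
        have : σ x = σ ⟨(i + 1) % k, hj⟩ := by rw [h1]; exact Fin.ext h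
        exact congrArg Fin.val (σ.injective this)
    · rintro (h | h)
      · have : x = ⟨i, by omega⟩ := Fin.ext h
        rw [this, h0]; simp
      · have : x = ⟨(i + 1) % k, hj⟩ := Fin.ext h
        rw [this, h1]; simp
  unfold gam
  rw [dif_pos hex]
  exact hex.choose_spec x

variable {V Y : Type*} [LinearOrder Y]

/-- The rank of the label of `w` among the labels of the elements of `S`. -/
noncomputable def rk (S : Set V) (U : V → Y) (w : V) : ℕ := {u | u ∈ S ∧ U u < U w}.ncard

lemma rk_lt_rk {S : Set V} (hS : S.Finite) {U : V → Y} {w w' : V} (hw : w ∈ S)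
    (h : U w < U w') : rk S U w < rk S U w' := by
  refine Set.ncard_lt_ncard ⟨fun u hu => ⟨hu.1, hu.2.trans h⟩, fun hsub => ?_⟩
    (hS.subset fun u hu => hu.1)
  exact lt_irrefl _ (hsub ⟨hw, h⟩).2

lemma rk_lt {S : Set V} (hS : S.Finite) (U : V → Y) {w : V} (hw : w ∈ S) :
    rk S U w < S.ncard := by
  refine Set.ncard_lt_ncard ⟨fun u hu => hu.1, fun hsub => ?_⟩ hS
  exact lt_irrefl _ (hsub hw).2

lemma rk_injOn {S : Set V} (hS : S.Finite) {U : V → Y} (hU : Function.Injective U) :
    Set.InjOn (rk S U) S := by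
  intro w hw w' hw' h
  rcases lt_trichotomy (U w) (U w') with h1 | h1 | h1
  · exact absurd h (rk_lt_rk hS hw h1).ne
  · exact hU h1
  · exact absurd h (rk_lt_rk hS hw' h1).ne'

lemma rk_surj {S : Set V} (hS : S.Finite) {U : V → Y} (hU : Function.Injective U) {i : ℕ}
    (hi : i < S.ncard) : ∃ w ∈ S, rk S U w = i := by
  have h1 : rk S U '' S ⊆ Set.Iio S.ncard := by
    rintro _ ⟨w, hw, rfl⟩
    exact rk_lt hS U hw
  have h2 : (rk S U '' S).ncard = S.ncard := (rk_injOn hS hU).ncard_image
  have h3 : rk S U '' S = Set.Iio S.ncard :=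
    Set.eq_of_subset_of_ncard_le h1 (by rw [h2]; simp) (Set.finite_Iio _)
  have : i ∈ rk S U '' S := by rw [h3]; exact hi
  exact this

lemma encard_inPair {S : Set V} (hS : S.Finite) {U : V → Y} (hU : Function.Injective U)
    (h2 : 2 ≤ S.ncard) {x : ℕ} (hx : x < S.ncard) :
    {w | w ∈ S ∧ InPair S.ncard (rk S U w) x}.encard = 2 := by
  set k := S.ncard with hk
  obtain ⟨w₁, hw₁, h₁⟩ := rk_surj hS hU hx
  have hy : (x + (k - 1)) % k < k := Nat.mod_lt _ (by omega)
  obtain ⟨w₂, hw₂, h₂⟩ := rk_surj hS hU hy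
  have hyx : ((x + (k - 1)) % k + 1) % k = x := by
    rw [Nat.mod_add_mod, show x + (k - 1) + 1 = x + k by omega, Nat.add_mod_right,
      Nat.mod_eq_of_lt hx]
  have hne : w₁ ≠ w₂ := by
    rintro rfl
    have := succ_mod_ne h2 hy
    rw [hyx, ← h₂, h₁] at this
    exact this rfl
  rw [Set.encard_eq_two]
  refine ⟨w₁, w₂, hne, ?_⟩
  ext w
  simp only [Set.mem_ofPred_eq, Set.mem_insert_iff, Set.mem_singleton_iff]
  constructor
  · rintro ⟨hw, h | h⟩
    · left
      exact rk_injOn hS hU hw hw₁ (by rw [h₁, h])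
    · right
      refine rk_injOn hS hU hw hw₂ ?_
      have hlt := rk_lt hS U hw
      rw [h₂, h, Nat.mod_add_mod, show rk S U w + 1 + (k - 1) = rk S U w + k by omega,
        Nat.add_mod_right, Nat.mod_eq_of_lt hlt]
  · rintro (rfl | rfl)
    · exact ⟨hw₁, Or.inl h₁.symm⟩
    · exact ⟨hw₂, Or.inr (by rw [h₂, hyx])⟩

lemma inPair_lt {k i x : ℕ} (hi : i < k) (h : InPair k i x) : x < k := by
  rcases h with h | h
  · omega
  · rw [h]; exact Nat.mod_lt _ (by omega)

/-- The core neighbours of a vertex. -/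
def coreNbr (G : SimpleGraph V) (v : V) : Set V := {w | Core G v w}

/-- The connection attached to the labels `U`. -/
noncomputable def conn (d : ℕ) (G : SimpleGraph V) (U : V → Y) (v w : V) : Equiv.Perm (Fin d) :=
  gam d (coreNbr G v).ncard (rk (coreNbr G v) U w)

/-- The edge `vw` is switched on, seen from `v`. -/
def IsOn (d : ℕ) (G : SimpleGraph V) (U : V → Y) (S : V → Fin d → Prop) (v w : V) : Prop :=
  Core G v w ∧ ∃ b, S v b ∧ (conn d G U v w b : ℕ) < 2

/-- The set of edges that are switched on. -/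
def lines (d : ℕ) (G : SimpleGraph V) (U : V → Y) (S : V → Fin d → Prop) : SimpleGraph V where
  Adj v w := IsOn d G U S v w ∧ IsOn d G U S w v
  symm := ⟨fun _ _ h => h.symm⟩
  loopless := ⟨fun _ h => h.1.1.1.ne rfl⟩

variable {G : SimpleGraph V} {d : ℕ} {U : V → Y}

lemma lines_le (S : V → Fin d → Prop) : lines d G U S ≤ G := fun _ _ h => h.1.1.1

lemma coreNbr_subset (v : V) : coreNbr G v ⊆ G.neighborSet v := fun _ h => h.1

lemma two_le_core (hG : G.IsAcyclic) {v w : V} (hfin : (G.neighborSet v).Finite)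
    (h : Core G v w) : 2 ≤ (coreNbr G v).ncard := by
  obtain ⟨u, hu, hcu⟩ := h.exists_ne hG hfin
  have hsub : ({u, w} : Set V) ⊆ coreNbr G v := by
    rintro x (rfl | rfl)
    · exact hcu
    · exact h
  rw [← Set.ncard_pair hu]
  exact Set.ncard_le_ncard hsub (hfin.subset (coreNbr_subset v))

lemma core_le (v : V) (hdeg : (G.neighborSet v).encard ≤ d) : (coreNbr G v).ncard ≤ d := by
  have h := (Set.encard_le_encard (coreNbr_subset (G := G) v)).trans hdeg
  have hfin : (coreNbr G v).Finite := Set.finite_of_encard_le_coe h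
  rw [← hfin.cast_ncard_eq] at h
  exact_mod_cast h

lemma neighborSet_lines (hG : G.IsAcyclic) (hdeg : ∀ v, (G.neighborSet v).encard ≤ d)
    {x : V → Fin d} (hx : IsSection G (conn d G U) x) (v : V) :
    (lines d G U fun v b => b = x v).neighborSet v =
      {w | w ∈ coreNbr G v ∧ InPair (coreNbr G v).ncard (rk (coreNbr G v) U w) (x v)} := by
  have hfin : (G.neighborSet v).Finite := Set.finite_of_encard_le_coe (hdeg v)
  have key : ∀ w, Core G v w → ((conn d G U v w (x v) : ℕ) < 2 ↔
      InPair (coreNbr G v).ncard (rk (coreNbr G v) U w) (x v)) := fun w hw =>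
    gam_spec (two_le_core hG hfin hw) (core_le v (hdeg v))
      (rk_lt (hfin.subset (coreNbr_subset v)) U hw) _
  ext w
  simp only [mem_neighborSet, lines, IsOn, exists_eq_left, Set.mem_ofPred_eq]
  constructor
  · rintro ⟨⟨hc, h1⟩, -⟩
    exact ⟨hc, (key w hc).1 h1⟩
  · rintro ⟨hc, h1⟩
    have h2 := (key w hc).2 h1
    exact ⟨⟨hc, h2⟩, Core.symm hc, by rw [← hx v w hc.1]; exact h2⟩

lemma encard_lines_of_lt (hG : G.IsAcyclic) (hdeg : ∀ v, (G.neighborSet v).encard ≤ d)
    (hU : Function.Injective U) {x : V → Fin d} (hx : IsSection G (conn d G U) x) (v : V)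
    (h : (x v : ℕ) < (coreNbr G v).ncard) :
    ((lines d G U fun v b => b = x v).neighborSet v).encard = 2 := by
  have hfin : (G.neighborSet v).Finite := Set.finite_of_encard_le_coe (hdeg v)
  rw [neighborSet_lines hG hdeg hx]
  obtain ⟨w, hw⟩ : (coreNbr G v).Nonempty := Set.nonempty_of_ncard_ne_zero (by omega)
  exact encard_inPair (hfin.subset (coreNbr_subset v)) hU (two_le_core hG hfin hw) h

lemma neighborSet_lines_of_le (hG : G.IsAcyclic) (hdeg : ∀ v, (G.neighborSet v).encard ≤ d)
    {x : V → Fin d} (hx : IsSection G (conn d G U) x) (v : V)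
    (h : (coreNbr G v).ncard ≤ (x v : ℕ)) :
    (lines d G U fun v b => b = x v).neighborSet v = ∅ := by
  have hfin : (G.neighborSet v).Finite := Set.finite_of_encard_le_coe (hdeg v)
  rw [neighborSet_lines hG hdeg hx, Set.eq_empty_iff_forall_notMem]
  rintro w ⟨hw, h1⟩
  exact absurd (inPair_lt (rk_lt (hfin.subset (coreNbr_subset v)) U hw) h1) (not_lt.2 h)

/-- The line ensemble through the state `a` at the base point `r`. -/
def linesAt (d : ℕ) (G : SimpleGraph V) (U : V → Y) (r : V) (a : Fin d) : SimpleGraph V :=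
  lines d G U (Reach G (conn d G U) r a)

lemma linesAt_eq (hG : G.IsTree) (U : V → Y) (r : V) (a : Fin d) :
    ∃ x : V → Fin d, IsSection G (conn d G U) x ∧ x r = a ∧
      linesAt d G U r a = lines d G U fun v b => b = x v := by
  obtain ⟨x, hx, hxr⟩ := exists_section (g := conn d G U) hG r a
  refine ⟨x, hx, hxr, ?_⟩
  unfold linesAt
  congr 1
  funext v b
  rw [← hxr]
  exact propext (reach_iff hG.connected.preconnected hx r v b)

lemma linesAt_encard (hG : G.IsTree) (hdeg : ∀ v, (G.neighborSet v).encard ≤ d)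
    (hU : Function.Injective U) (r : V) (a : Fin d) (v : V) :
    ((linesAt d G U r a).neighborSet v).encard = 0 ∨
      ((linesAt d G U r a).neighborSet v).encard = 2 := by
  obtain ⟨x, hx, -, heq⟩ := linesAt_eq hG U r a
  rw [heq]
  rcases Nat.lt_or_ge (x v : ℕ) (coreNbr G v).ncard with h | h
  · exact Or.inr (encard_lines_of_lt hG.isAcyclic hdeg hU hx v h)
  · left
    rw [neighborSet_lines_of_le hG.isAcyclic hdeg hx v h, Set.encard_empty]

lemma linesAt_root (hG : G.IsTree) (hdeg : ∀ v, (G.neighborSet v).encard ≤ d)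
    (hU : Function.Injective U) (r : V) (a : Fin d) (h : (a : ℕ) < (coreNbr G r).ncard) :
    ∃ w, (linesAt d G U r a).Adj r w := by
  obtain ⟨x, hx, hxr, heq⟩ := linesAt_eq hG U r a
  rw [heq]
  have h2 := encard_lines_of_lt hG.isAcyclic hdeg hU hx r (by rw [hxr]; exact h)
  have : ((lines d G U fun v b => b = x v).neighborSet r).Nonempty := by
    rw [← Set.encard_ne_zero, h2]; decide
  exact this

lemma sum_linesAt {M : Type*} [AddCommMonoid M] (hG : G.IsTree) (U : V → Y) (r r' : V)
    (Φ : SimpleGraph V → M) :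
    ∑ a : Fin d, Φ (linesAt d G U r a) = ∑ a : Fin d, Φ (linesAt d G U r' a) :=
  sum_reach_eq (g := conn d G U) hG r r' fun S => Φ (lines d G U S)

/-! Invariance under isomorphisms. -/

variable {W : Type*} {G' : SimpleGraph W} {U' : W → Y}

lemma coreNbr_iso (φ : G ≃g G') (v : V) : coreNbr G' (φ v) = φ '' coreNbr G v := by
  ext y
  obtain ⟨x, rfl⟩ := φ.surjective y
  rw [φ.injective.mem_set_image]
  exact core_iso φ v x

lemma coreNbr_ncard_iso (φ : G ≃g G') (v : V) :
    (coreNbr G' (φ v)).ncard = (coreNbr G v).ncard := by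
  rw [coreNbr_iso, Set.ncard_image_of_injective _ φ.injective]

lemma conn_iso (φ : G ≃g G') (hU : ∀ v, U' (φ v) = U v) (v w : V) :
    conn d G' U' (φ v) (φ w) = conn d G U v w := by
  unfold conn
  rw [coreNbr_ncard_iso]
  congr 1
  unfold rk
  rw [← Set.ncard_image_of_injective {u | u ∈ coreNbr G v ∧ U u < U w} φ.injective]
  congr 1
  ext y
  obtain ⟨x, rfl⟩ := φ.surjective y
  rw [φ.injective.mem_set_image]
  simp only [Set.mem_ofPred_eq, hU]
  exact and_congr_left' (core_iso φ v x)

lemma linesAt_iso (φ : G ≃g G') (hU : ∀ v, U' (φ v) = U v) (r : V) (a : Fin d) (v w : V) :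
    (linesAt d G' U' (φ r) a).Adj (φ v) (φ w) ↔ (linesAt d G U r a).Adj v w := by
  simp only [linesAt, lines, IsOn, core_iso, conn_iso φ hU, reach_iso φ (conn_iso φ hU)]

end Pool.Agent.Work.MP_f65c66_pr
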