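import Pool.Agent.Work.MP_f65c66_pr.Count
import Mathlib.Probability.Independence.InfinitePi
import Mathlib.Probability.Distributions.Gaussian.Real

/-!
The invariant line ensemble.
-/

open SimpleGraph MeasureTheory ProbabilityTheory
open scoped ENNReal

namespace Pool.Agent.Work.MP_f65c66_pr

/-- Independent continuous labels. -/
noncomputable def lam : Measure (ℕ → ℝ) := Measure.infinitePi fun _ : ℕ => gaussianReal 0 1

instance : IsProbabilityMeasure lam := by unfold lam; infer_instance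

lemma lam_injective : ∀ᵐ U ∂lam, Function.Injective U := by
  have : ∀ i j : ℕ, ∀ᵐ U ∂lam, U i = U j → i = j := by
    intro i j
    by_cases hij : i = j
    · exact Filter.Eventually.of_forall fun _ _ => hij
    have : NullSingletonClass (gaussianReal 0 1) := nullSingletonClass_gaussianReal one_ne_zero
    have hm : MeasurableSet {z : ℝ × ℝ | z.1 ≠ z.2} :=
      (measurableSet_eq_fun measurable_fst measurable_snd).compl
    have h1 : ∀ᵐ z ∂(gaussianReal 0 1).prod (gaussianReal 0 1), z.1 ≠ z.2 := by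
      rw [Measure.ae_prod_iff_ae_ae hm]
      exact Filter.Eventually.of_forall fun x =>
        (Measure.ae_ne (gaussianReal 0 1) x).mono fun y hy => hy.symm
    rw [← Measure.infinitePi_map_eval_prod (P := fun _ : ℕ => gaussianReal 0 1) hij] at h1
    have h2 := ae_of_ae_map (Measurable.aemeasurable (by fun_prop)) h1
    exact h2.mono fun U hU h => absurd h hU
  have h := ae_all_iff.2 fun i => ae_all_iff.2 (this i)
  exact h.mono fun U hU i j hij => hU i j hij

lemma lintegral_lam_comp {e : ℕ → ℕ} (he : Function.Injective e) {H : (ℕ → ℝ) → ℝ≥0∞}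
    (hH : Measurable H) : ∫⁻ U, H (fun i => U (e i)) ∂lam = ∫⁻ U, H U ∂lam := by
  have h := Measure.map_infinitePi_infinitePi_of_inj (P := fun _ : ℕ => gaussianReal 0 1) he
  have hm : Measurable fun (U : ℕ → ℝ) i => U (e i) := by fun_prop
  rw [← lintegral_map hH hm]
  unfold lam
  rw [h]

/-- The marked rooted graph built from the rooted graph, the labels and the colour. -/
noncomputable def Psi (d : ℕ) (a : Fin d) (z : (SimpleGraph ℕ × ℕ) × (ℕ → ℝ)) :
    SimpleGraph ℕ × SimpleGraph ℕ × ℕ :=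
  (z.1.1, linesAt d z.1.1 z.2 z.1.2 a, z.1.2)

lemma measurable_Psi (d : ℕ) (a : Fin d) : Measurable (Psi d a) :=
  measurable_fst.fst.prodMk
    ((measurable_linesAt' measurable_fst.fst measurable_snd measurable_fst.snd a).prodMk
      measurable_fst.snd)

/-- The law of the marked rooted graph. -/
noncomputable def nu (d : ℕ) (μ : Measure (SimpleGraph ℕ × ℕ)) :
    Measure (SimpleGraph ℕ × SimpleGraph ℕ × ℕ) :=
  (d : ℝ≥0∞)⁻¹ • ∑ a : Fin d, (μ.prod lam).map (Psi d a)

variable {d : ℕ} {μ : Measure (SimpleGraph ℕ × ℕ)}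

lemma lintegral_nu [SFinite μ] {f : SimpleGraph ℕ × SimpleGraph ℕ × ℕ → ℝ≥0∞}
    (hf : Measurable f) :
    ∫⁻ q, f q ∂nu d μ = (d : ℝ≥0∞)⁻¹ * ∫⁻ p, ∫⁻ U, ∑ a, f (Psi d a (p, U)) ∂lam ∂μ := by
  unfold nu
  rw [lintegral_smul_measure, lintegral_finsetSum_measure, smul_eq_mul]
  congr 1
  have hm : ∀ a, Measurable fun z => f (Psi d a z) := fun a => hf.comp (measurable_Psi d a)
  rw [← lintegral_prod (fun z => ∑ a, f (Psi d a z))
    (Finset.measurable_sum _ fun a _ => hm a).aemeasurable,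
    lintegral_finsetSum _ fun a _ => hm a]
  exact Finset.sum_congr rfl fun a _ => lintegral_map hf (measurable_Psi d a)

lemma lintegral_tsum_nu [SFinite μ] {f : ℕ → SimpleGraph ℕ × SimpleGraph ℕ × ℕ → ℝ≥0∞}
    (hf : ∀ v, Measurable (f v)) :
    ∫⁻ q, ∑' v, f v q ∂nu d μ =
      (d : ℝ≥0∞)⁻¹ * ∫⁻ p, ∑' v, ∫⁻ U, ∑ a, f v (Psi d a (p, U)) ∂lam ∂μ := by
  rw [lintegral_nu (Measurable.tsum hf)]
  congr 1
  refine lintegral_congr fun p => ?_
  have hm : ∀ v, Measurable fun U => ∑ a, f v (Psi d a (p, U)) := fun v =>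
    Finset.measurable_sum _ fun a _ =>
      (hf v).comp ((measurable_Psi d a).comp measurable_prodMk_left)
  rw [← lintegral_tsum fun v => (hm v).aemeasurable]
  refine lintegral_congr fun U => ?_
  exact (Summable.tsum_finsetSum fun a _ => ENNReal.summable).symm

lemma map_nu (hd : d ≠ 0) [IsProbabilityMeasure μ] :
    (nu d μ).map (fun q => (q.1, q.2.2)) = μ := by
  have hm : Measurable fun q : SimpleGraph ℕ × SimpleGraph ℕ × ℕ => (q.1, q.2.2) := by fun_prop
  ext s hs
  rw [← lintegral_indicator_one hs, lintegral_map (measurable_one.indicator hs) hm,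
    lintegral_nu (f := fun q => s.indicator 1 (q.1, q.2.2))
      ((measurable_one.indicator hs).comp hm), ← lintegral_indicator_one hs]
  simp only [Psi, Finset.sum_const, Finset.card_univ, Fintype.card_fin,
    lintegral_const, measure_univ, mul_one, nsmul_eq_mul]
  rw [lintegral_const_mul _ (measurable_one.indicator hs), ← mul_assoc,
    ENNReal.inv_mul_cancel (by simpa using hd) (by simp), one_mul]

lemma isProb_nu (hd : d ≠ 0) [IsProbabilityMeasure μ] : IsProbabilityMeasure (nu d μ) := by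
  have hm : Measurable fun q : SimpleGraph ℕ × SimpleGraph ℕ × ℕ => (q.1, q.2.2) := by fun_prop
  constructor
  have := congrArg (fun m : Measure (SimpleGraph ℕ × ℕ) => m Set.univ) (map_nu (μ := μ) hd)
  simpa [Measure.map_apply hm MeasurableSet.univ] using this

lemma measurableSet_line :
    MeasurableSet {q : SimpleGraph ℕ × SimpleGraph ℕ × ℕ | IsLineEnsemble q.1 q.2.1} := by
  refine Measurable.setOf (Measurable.and ?_ (Measurable.forall fun v => ?_))
  · exact Measurable.forall fun v => Measurable.forall fun w =>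
      (measurable_adj' measurable_snd.fst v w).imp (measurable_adj' measurable_fst v w)
  · have h1 : Measurable fun q : SimpleGraph ℕ × SimpleGraph ℕ × ℕ =>
        (q.2.1.neighborSet v).encard :=
      measurable_encard.comp (measurable_neighborSet measurable_snd.fst v)
    exact (h1.eq_const 0).or (h1.eq_const 2)

lemma ae_line [SFinite μ] (htree : ∀ᵐ p ∂μ, p.1.IsTree)
    (hdeg : ∀ᵐ p ∂μ, ∀ v, (p.1.neighborSet v).encard ≤ (d : ℕ∞)) :
    ∀ᵐ q ∂nu d μ, IsLineEnsemble q.1 q.2.1 := by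
  unfold nu
  refine Measure.ae_smul_measure ?_ _
  rw [ae_finsetSum_measure_iff]
  intro a _
  rw [ae_map_iff (measurable_Psi d a).aemeasurable measurableSet_line]
  filter_upwards [Measure.quasiMeasurePreserving_fst.ae htree,
    Measure.quasiMeasurePreserving_fst.ae hdeg,
    Measure.quasiMeasurePreserving_snd.ae lam_injective] with z h1 h2 h3
  exact ⟨lines_le _, linesAt_encard h1 h2 h3 _ a⟩

lemma unimodular_nu [SFinite μ] (hμ : IsUnimodular μ) (htree : ∀ᵐ p ∂μ, p.1.IsTree) :
    IsUnimodularMarked (nu d μ) := by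
  intro F hF hinv
  let Ft : SimpleGraph ℕ × ℕ × ℕ → ℝ≥0∞ := fun t =>
    ∫⁻ U, ∑ a, F (t.1, linesAt d t.1 U t.2.1 a, t.2.1, t.2.2) ∂lam
  have hFm : Measurable fun z : (SimpleGraph ℕ × ℕ × ℕ) × (ℕ → ℝ) =>
      ∑ a, F (z.1.1, linesAt d z.1.1 z.2 z.1.2.1 a, z.1.2.1, z.1.2.2) :=
    Finset.measurable_sum _ fun a _ => hF.comp (measurable_fst.fst.prodMk
      ((measurable_linesAt' measurable_fst.fst measurable_snd measurable_fst.snd.fst a).prodMk
        measurable_fst.snd))
  have hFt : Measurable Ft := hFm.lintegral_prod_right'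
  have hFinv : ∀ (G G' : SimpleGraph ℕ) (φ : G ≃g G') (u v : ℕ),
      Ft (G', φ u, φ v) = Ft (G, u, v) := by
    intro G G' φ u v
    have hH : Measurable fun U : ℕ → ℝ => ∑ a, F (G, linesAt d G U u a, u, v) :=
      hFm.comp (measurable_prodMk_left (x := (G, u, v)))
    simp only [Ft]
    rw [← lintegral_lam_comp φ.injective hH]
    refine lintegral_congr fun U => Finset.sum_congr rfl fun a _ => ?_
    exact hinv G G' _ _ φ (linesAt_iso φ (fun _ => rfl) u a) u v
  have key := hμ Ft hFt hFinv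
  rw [lintegral_tsum_nu (f := fun v q => F (q.1, q.2.1, q.2.2, v))
      fun v => hF.comp (by fun_prop),
    lintegral_tsum_nu (f := fun v q => F (q.1, q.2.1, v, q.2.2)) fun v => hF.comp (by fun_prop)]
  congr 1
  refine key.trans (lintegral_congr_ae ?_)
  filter_upwards [htree] with p hp
  refine tsum_congr fun v => lintegral_congr fun U => ?_
  exact sum_linesAt hp U v p.2 fun L => F (p.1, L, v, p.2)

lemma density_nu [IsProbabilityMeasure μ] (htree : ∀ᵐ p ∂μ, p.1.IsTree)
    (hdeg : ∀ᵐ p ∂μ, ∀ v, (p.1.neighborSet v).encard ≤ (d : ℕ∞)) :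
    (d : ℝ≥0∞)⁻¹ * ∫⁻ p, cnt (Core p.1 p.2) ∂μ ≤ nu d μ {q | ∃ w, q.2.1.Adj q.2.2 w} := by
  have hs : MeasurableSet {q : SimpleGraph ℕ × SimpleGraph ℕ × ℕ | ∃ w, q.2.1.Adj q.2.2 w} :=
    Measurable.setOf (Measurable.exists fun w =>
      measurable_rel (R := SimpleGraph.Adj) (measurable_adj' measurable_id) measurable_snd.fst
        measurable_snd.snd measurable_const)
  rw [← lintegral_indicator_one hs, lintegral_nu (measurable_one.indicator hs)]
  refine mul_le_mul_right (lintegral_mono_ae ?_) _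
  filter_upwards [htree, hdeg] with p hp hd
  have hfin : (coreNbr p.1 p.2).Finite :=
    (Set.finite_of_encard_le_coe (hd p.2)).subset (coreNbr_subset p.2)
  have hk : cnt (Core p.1 p.2) = ((coreNbr p.1 p.2).ncard : ℝ≥0∞) := by
    change (((coreNbr p.1 p.2).encard : ℕ∞) : ℝ≥0∞) = _
    rw [← hfin.cast_ncard_eq]; simp
  have hkd := core_le p.2 (hd p.2)
  set k := (coreNbr p.1 p.2).ncard with hkdef
  calc cnt (Core p.1 p.2) = ∫⁻ _, (k : ℝ≥0∞) ∂lam := by simp [hk]
    _ ≤ _ := by
      refine lintegral_mono_ae ?_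
      filter_upwards [lam_injective] with U hU
      have h1 : (k : ℝ≥0∞) = ∑ a : Fin d, if (a : ℕ) < k then 1 else 0 := by
        rw [Finset.sum_boole, Fin.card_filter_val_lt, min_eq_right hkd]
      rw [h1]
      refine Finset.sum_le_sum fun a _ => ?_
      split_ifs with ha
      · rw [Set.indicator_of_mem]
        · rfl
        · exact linesAt_root hp hd hU p.2 a ha
      · exact zero_le

theorem main (d : ℕ) (hd : 2 ≤ d) (μ : Measure (SimpleGraph ℕ × ℕ)) [IsProbabilityMeasure μ]
    (htree : ∀ᵐ p ∂μ, p.1.IsTree) (hμ : IsUnimodular μ)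
    (hdeg : ∀ᵐ p ∂μ, (p.1.neighborSet p.2).encard ≤ (d : ℕ∞)) :
    ∃ ν : Measure (SimpleGraph ℕ × SimpleGraph ℕ × ℕ), IsProbabilityMeasure ν ∧
      ν.map (fun q => (q.1, q.2.2)) = μ ∧ (∀ᵐ q ∂ν, IsLineEnsemble q.1 q.2.1) ∧
      IsUnimodularMarked ν ∧
      3 * ((∫ p, ((p.1.neighborSet p.2).ncard : ℝ) ∂μ) / d) - 2 ≤
        ν.real {q | ∃ w, q.2.1.Adj q.2.2 w} := by
  have hd0 : d ≠ 0 := by omega
  have hall := all_deg_le hμ hdeg
  have := isProb_nu (μ := μ) hd0
  refine ⟨nu d μ, this, map_nu hd0, ae_line htree hall, unimodular_nu hμ htree, ?_⟩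
  refine (core_bound hμ htree hd hdeg).trans ?_
  have h := ENNReal.toReal_mono (measure_ne_top _ _) (density_nu htree hall)
  rwa [ENNReal.toReal_mul, ENNReal.toReal_inv, ENNReal.toReal_natCast, mul_comm,
    ← div_eq_mul_inv] at h

end Pool.Agent.Work.MP_f65c66_pr
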