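import Pool.Agent.Work.MP_f65c66_pr.Local
import Mathlib.MeasureTheory.Constructions.SimpleGraph
import Mathlib.MeasureTheory.MeasurableSpace.NCard
import Mathlib.MeasureTheory.Constructions.BorelSpace.Order
import Mathlib.MeasureTheory.Constructions.BorelSpace.Real

/-!
Measurability of the construction.
-/

open SimpleGraph Relation MeasureTheory

namespace Pool.Agent.Work.MP_f65c66_pr

variable {Ω : Type*} [MeasurableSpace Ω]

lemma measurable_at {ι β : Type*} [Countable ι] [MeasurableSpace ι] [MeasurableSingletonClass ι]
    [MeasurableSpace β] {f : ι → Ω → β} (hf : ∀ i, Measurable (f i)) {g : Ω → ι}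
    (hg : Measurable g) : Measurable fun ω => f (g ω) ω := by
  have : Measurable fun p : Ω × ι => f p.2 p.1 :=
    measurable_from_prod_countable_left fun n => hf n
  exact this.comp (measurable_id.prodMk hg)

/-- Walks with a given number of steps. -/
def steps {α : Type*} (r : α → α → Prop) (a : α) : ℕ → α → Prop
  | 0, b => a = b
  | n + 1, b => ∃ c, steps r a n c ∧ r c b

lemma reflTransGen_iff_steps {α : Type*} (r : α → α → Prop) (a b : α) :
    ReflTransGen r a b ↔ ∃ n, steps r a n b := by
  constructor
  · intro h
    induction h with
    | refl => exact ⟨0, rfl⟩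
    | tail _ h2 ih =>
      obtain ⟨n, hn⟩ := ih
      exact ⟨n + 1, _, hn, h2⟩
  · rintro ⟨n, hn⟩
    induction n generalizing b with
    | zero => obtain rfl : a = b := hn; exact ReflTransGen.refl
    | succ n ih =>
      obtain ⟨c, hc, hcb⟩ := hn
      exact ReflTransGen.tail (ih c hc) hcb

lemma measurable_reflTransGen {α : Type*} [Countable α] {r : Ω → α → α → Prop}
    (hr : ∀ a b, Measurable fun ω => r ω a b) (a b : α) :
    Measurable fun ω => ReflTransGen (r ω) a b := by
  simp only [reflTransGen_iff_steps]
  refine Measurable.exists fun n => ?_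
  induction n generalizing b with
  | zero => exact measurable_const
  | succ n ih => exact Measurable.exists fun c => (ih c).and (hr c b)

lemma measurable_finite {α : Type*} [Countable α] {s : Ω → Set α} (hs : Measurable s) :
    Measurable fun ω => (s ω).Finite := by
  have h1 : Measurable fun ω => (s ω).encard := measurable_encard.comp hs
  have h2 : Measurable fun n : ℕ∞ => n ≠ ⊤ := Measurable.of_discrete
  simpa only [Function.comp_def, Set.encard_ne_top_iff] using h2.comp h1

variable {G : Ω → SimpleGraph ℕ}

lemma measurable_adj' (hG : Measurable G) (v w : ℕ) : Measurable fun ω => (G ω).Adj v w :=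
  measurable_iff_adj.1 hG v w

lemma measurable_neighborSet (hG : Measurable G) (v : ℕ) :
    Measurable fun ω => (G ω).neighborSet v :=
  measurable_set_iff.2 fun w => measurable_adj' hG v w

lemma measurable_branch (hG : Measurable G) (v w : ℕ) : Measurable fun ω => branch (G ω) v w :=
  measurable_set_iff.2 fun x =>
    measurable_reflTransGen (r := fun ω a b => (G ω).Adj a b ∧ b ≠ v)
      (fun a b => (measurable_adj' hG a b).and measurable_const) w x

lemma measurable_core (hG : Measurable G) (v w : ℕ) : Measurable fun ω => Core (G ω) v w :=
  (measurable_adj' hG v w).and ((measurable_finite (measurable_branch hG v w)).not.and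
    (measurable_finite (measurable_branch hG w v)).not)

lemma measurable_par (hG : Measurable G) (v w : ℕ) : Measurable fun ω => Par (G ω) v w :=
  (measurable_adj' hG v w).and (measurable_finite (measurable_branch hG w v))

lemma measurable_coreNbr (hG : Measurable G) (v : ℕ) : Measurable fun ω => coreNbr (G ω) v :=
  measurable_set_iff.2 fun w => measurable_core hG v w

variable {U : Ω → ℕ → ℝ} {d : ℕ}

lemma measurable_conn (hG : Measurable G) (hU : Measurable U) (v w : ℕ) (b : Fin d) :
    Measurable fun ω => conn d (G ω) (U ω) v w b := by
  have h1 : Measurable fun ω => (coreNbr (G ω) v).ncard :=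
    measurable_ncard.comp (measurable_coreNbr hG v)
  have h2 : Measurable fun ω => rk (coreNbr (G ω) v) (U ω) w := by
    refine measurable_ncard.comp (measurable_set_iff.2 fun u => ?_)
    refine (measurable_core hG v u).and ?_
    exact measurableSet_setOfPred.1
      (measurableSet_lt ((measurable_pi_apply u).comp hU) ((measurable_pi_apply w).comp hU))
  have h3 : Measurable fun p : ℕ × ℕ => gam d p.1 p.2 b := Measurable.of_discrete
  exact h3.comp (h1.prodMk h2)

lemma measurable_linesAt (hG : Measurable G) (hU : Measurable U) (r : ℕ) (a : Fin d) :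
    Measurable fun ω => linesAt d (G ω) (U ω) r a := by
  have hR : ∀ v b, Measurable fun ω => Reach (G ω) (conn d (G ω) (U ω)) r a v b := by
    intro v b
    refine measurable_reflTransGen (r := fun ω => Step (G ω) (conn d (G ω) (U ω)))
      (fun p q => (measurable_adj' hG p.1 q.1).and ?_) _ _
    have h3 : Measurable fun z : Fin d × Fin d => z.1 = z.2 := Measurable.of_discrete
    exact h3.comp ((measurable_conn hG hU p.1 q.1 p.2).prodMk (measurable_conn hG hU q.1 p.1 q.2))
  have hOn : ∀ v w, Measurable fun ω =>
      IsOn d (G ω) (U ω) (Reach (G ω) (conn d (G ω) (U ω)) r a) v w := by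
    intro v w
    refine (measurable_core hG v w).and (Measurable.exists fun b => (hR v b).and ?_)
    have h3 : Measurable fun z : Fin d => (z : ℕ) < 2 := Measurable.of_discrete
    exact h3.comp (measurable_conn hG hU v w b)
  exact measurable_iff_adj.2 fun v w => (hOn v w).and (hOn w v)

lemma measurable_linesAt' (hG : Measurable G) (hU : Measurable U) {r : Ω → ℕ}
    (hr : Measurable r) (a : Fin d) : Measurable fun ω => linesAt d (G ω) (U ω) (r ω) a :=
  measurable_at (f := fun r ω => linesAt d (G ω) (U ω) r a)
    (fun r => measurable_linesAt hG hU r a) hr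

end Pool.Agent.Work.MP_f65c66_pr
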