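import Pool.Agent.Work.MP_f65c66_pr.Branch
import Mathlib.Algebra.BigOperators.Group.Finset.Basic
import Mathlib.Data.Fintype.Card

/-!
Flat connections on a tree: sections exist and are determined by their value at one vertex.
-/

open SimpleGraph Relation

namespace Pool.Agent.Work.MP_f65c66_pr

variable {V X : Type*}

/-- One step of parallel transport. -/
def Step (G : SimpleGraph V) (g : V → V → Equiv.Perm X) (p q : V × X) : Prop :=
  G.Adj p.1 q.1 ∧ g p.1 q.1 p.2 = g q.1 p.1 q.2

/-- Parallel transport of the state `a` at `r` leads to the state `b` at `v`. -/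
def Reach (G : SimpleGraph V) (g : V → V → Equiv.Perm X) (r : V) (a : X) (v : V) (b : X) :
    Prop :=
  ReflTransGen (Step G g) (r, a) (v, b)

/-- Flat sections. -/
def IsSection (G : SimpleGraph V) (g : V → V → Equiv.Perm X) (x : V → X) : Prop :=
  ∀ v w, G.Adj v w → g v w (x v) = g w v (x w)

/-- Transport along a walk. -/
def transport {G : SimpleGraph V} (g : V → V → Equiv.Perm X) :
    ∀ {u v : V}, G.Walk u v → X → X
  | _, _, .nil, a => a
  | u, _, .cons' _ w _ _ p, a => transport g p ((g w u).symm (g u w a))

variable {G : SimpleGraph V} {g : V → V → Equiv.Perm X}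

lemma transport_concat {u v w : V} (p : G.Walk u v) (h : G.Adj v w) (a : X) :
    transport g (p.concat h) a = (g w v).symm (g v w (transport g p a)) := by
  induction p generalizing a with
  | nil => rfl
  | cons h' p ih =>
    rw [Walk.concat_cons]
    simp only [transport]
    exact ih h _

lemma exists_section (hG : G.IsTree) (r : V) (a : X) :
    ∃ x : V → X, IsSection G g x ∧ x r = a := by
  choose P hP hPu using fun v => hG.existsUnique_path r v
  refine ⟨fun v => transport g (P v) a, ?_, ?_⟩
  · intro v w hvw
    by_cases hv : v ∈ (P w).support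
    · have := hG.isAcyclic.path_concat (hP v) (hP w) hvw hv
      simp only [this, transport_concat, Equiv.apply_symm_apply]
    · have hw := hG.isAcyclic.mem_support_of_ne_mem_support_of_adj_of_isPath (hP v) (hP w) hvw hv
      have := hG.isAcyclic.path_concat (hP w) (hP v) hvw.symm hw
      simp only [this, transport_concat, Equiv.apply_symm_apply]
  · have := hPu r Walk.nil Walk.IsPath.nil
    simp only [← this, transport]

lemma reach_iff (hG : G.Preconnected) {x : V → X} (hx : IsSection G g x) (r v : V) (b : X) :
    Reach G g r (x r) v b ↔ b = x v := by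
  constructor
  · intro h
    have : ∀ q : V × X, ReflTransGen (Step G g) (r, x r) q → q.2 = x q.1 := by
      intro q hq
      induction hq with
      | refl => rfl
      | @tail p q _ h2 ih =>
        have h3 := hx _ _ h2.1
        have h4 := h2.2
        rw [ih, h3] at h4
        exact ((g q.1 p.1).injective h4).symm
    exact this _ h
  · rintro rfl
    have hv := (reachable_iff_reflTransGen _ _).1 (hG r v)
    unfold Reach
    induction hv with
    | refl => exact ReflTransGen.refl
    | tail _ h2 ih => exact ReflTransGen.tail ih ⟨h2, hx _ _ h2⟩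

/-- Changing the base point permutes the sections. -/
lemma sum_reach_eq [Fintype X] {M : Type*} [AddCommMonoid M] (hG : G.IsTree) (r r' : V)
    (Φ : (V → X → Prop) → M) :
    ∑ a, Φ (Reach G g r a) = ∑ a, Φ (Reach G g r' a) := by
  choose x hx hxr using fun a => exists_section (g := g) hG r a
  have hc := hG.connected.preconnected
  have key : ∀ a, Reach G g r a = Reach G g r' (x a r') := by
    intro a
    funext v b
    apply propext
    rw [reach_iff hc (hx a) r' v b]
    conv_lhs => rw [← hxr a]
    exact reach_iff hc (hx a) r v b
  have hinj : Function.Injective fun a => x a r' := by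
    intro a a' haa
    have h1 : Reach G g r' (x a r') r a := by
      rw [reach_iff hc (hx a) r' r a, hxr]
    simp only at haa
    rw [haa, reach_iff hc (hx a') r' r a, hxr] at h1
    exact h1
  have hbij : Function.Bijective fun a => x a r' := Finite.injective_iff_bijective.1 hinj
  simp only [key]
  exact (Equiv.ofBijective _ hbij).sum_comp fun a => Φ (Reach G g r' a)

variable {W : Type*} {G' : SimpleGraph W} {g' : W → W → Equiv.Perm X}

lemma reach_iso (φ : G ≃g G') (hg : ∀ v w, g' (φ v) (φ w) = g v w) (r : V) (a : X) (v : V)
    (b : X) : Reach G' g' (φ r) a (φ v) b ↔ Reach G g r a v b := by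
  have := reflTransGen_equiv (φ.toEquiv.prodCongr (Equiv.refl X)) (r := Step G g)
    (r' := Step G' g') (fun p q => by
      simp only [Step, Equiv.prodCongr_apply, Prod.map_fst, Prod.map_snd, Equiv.coe_refl, id]
      refine and_congr φ.map_rel_iff ?_
      have h1 := hg p.1 q.1
      have h2 := hg q.1 p.1
      exact Eq.congr (congrFun (congrArg DFunLike.coe h1) _) (congrFun (congrArg DFunLike.coe h2) _))
    (r, a) (v, b)
  exact this

end Pool.Agent.Work.MP_f65c66_pr
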